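import Mathlib

set_option autoImplicit false

/-!
# TR project (helper592), statement T4: the Euler product
-/

open Finset Filter Topology

namespace Pool.Agent.H387.TR

/-- `∏ (1 - 1/p²) = 6/π²` -/
theorem hasProd_sq : HasProd (fun p : Nat.Primes => 1 - 1 / ((p : ℕ) : ℝ) ^ 2)
    (6 / Real.pi ^ 2) := by
  let f : ℕ →*₀ ℝ :=
    { toFun := fun n => 1 / (n : ℝ) ^ 2
      map_zero' := by simp
      map_one' := by simp
      map_mul' := by intro a b; push_cast; rw [mul_pow, one_div_mul_one_div] }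
  have hs : Summable (fun n => ‖f n‖) := by
    have h1 : Summable (fun n : ℕ => 1 / (n : ℝ) ^ 2) :=
      Real.summable_one_div_nat_pow.2 (by norm_num)
    refine h1.congr fun n => ?_
    rw [Real.norm_of_nonneg]
    · rfl
    · change 0 ≤ 1 / (n : ℝ) ^ 2
      positivity
  have h1 := EulerProduct.eulerProduct_completely_multiplicative_hasProd (f := f) hs
  have h2 : ∑' n, f n = Real.pi ^ 2 / 6 := hasSum_zeta_two.tsum_eq
  rw [h2] at h1
  have h3 : Tendsto (fun s : Finset Nat.Primes => (∏ p ∈ s, (1 - f p)⁻¹)⁻¹) atTop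
      (𝓝 (Real.pi ^ 2 / 6)⁻¹) := by
    have h4 : Tendsto (fun s : Finset Nat.Primes => ∏ p ∈ s, (1 - f p)⁻¹) atTop
      (𝓝 (Real.pi ^ 2 / 6)) := h1
    exact h4.inv₀ (by positivity)
  have h5 : (Real.pi ^ 2 / 6)⁻¹ = 6 / Real.pi ^ 2 := by rw [inv_div]
  rw [h5] at h3
  have h6 : Tendsto (fun s : Finset Nat.Primes => ∏ p ∈ s, (1 - 1 / ((p : ℕ) : ℝ) ^ 2)) atTop
      (𝓝 (6 / Real.pi ^ 2)) := by
    refine h3.congr fun s => ?_
    rw [← Finset.prod_inv_distrib]
    refine Finset.prod_congr rfl fun p _ => ?_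
    rw [inv_inv]
    rfl
  exact h6

/-- the coefficients -/
noncomputable def ff (d e : ℕ) : ℝ :=
  if Odd e then ((ArithmeticFunction.moebius e : ℤ) : ℝ) * (Nat.gcd d e : ℝ) / (e : ℝ) ^ 2 else 0

theorem ff_zero (d : ℕ) : ff d 0 = 0 := by
  rw [ff, if_neg (by decide)]

theorem ff_one (d : ℕ) : ff d 1 = 1 := by
  rw [ff, if_pos (by decide)]
  simp

theorem gcd_mul_coprime (d : ℕ) {m n : ℕ} (h : Nat.Coprime m n) :
    Nat.gcd d (m * n) = Nat.gcd d m * Nat.gcd d n := by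
  exact Nat.Coprime.gcd_mul d h

theorem ff_mul (d : ℕ) {m n : ℕ} (h : Nat.Coprime m n) : ff d (m * n) = ff d m * ff d n := by
  unfold ff
  rw [gcd_mul_coprime d h]
  by_cases hm : Odd m
  · by_cases hn : Odd n
    · rw [if_pos hm, if_pos hn, if_pos (hm.mul hn),
        ArithmeticFunction.isMultiplicative_moebius.map_mul_of_coprime h]
      push_cast
      rw [div_mul_div_comm, mul_pow]
      congr 1
      ring
    · rw [if_neg hn, if_neg (fun h1 => hn (Nat.odd_mul.1 h1).2), mul_zero]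
  · rw [if_neg hm, if_neg (fun h1 => hm (Nat.odd_mul.1 h1).1), zero_mul]

theorem abs_moebius_le (e : ℕ) : |((ArithmeticFunction.moebius e : ℤ) : ℝ)| ≤ 1 := by
  have h1 : |ArithmeticFunction.moebius e| ≤ 1 := ArithmeticFunction.abs_moebius_le_one
  exact_mod_cast h1

theorem ff_abs (d e : ℕ) (hd : 1 ≤ d) : |ff d e| ≤ d * (1 / (e : ℝ) ^ 2) := by
  unfold ff
  split_ifs
  · rw [abs_div, abs_mul, Nat.abs_cast, abs_of_nonneg (by positivity : (0 : ℝ) ≤ (e : ℝ) ^ 2),
      mul_one_div]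
    refine div_le_div_of_nonneg_right ?_ (by positivity)
    have h1 : ((Nat.gcd d e : ℕ) : ℝ) ≤ d := by exact_mod_cast Nat.gcd_le_left e hd
    calc |((ArithmeticFunction.moebius e : ℤ) : ℝ)| * ((Nat.gcd d e : ℕ) : ℝ)
        ≤ 1 * ((Nat.gcd d e : ℕ) : ℝ) :=
          mul_le_mul_of_nonneg_right (abs_moebius_le e) (Nat.cast_nonneg _)
      _ ≤ d := by rw [one_mul]; exact h1
  · rw [abs_zero]; positivity

theorem ff_summable (d : ℕ) (hd : 1 ≤ d) : Summable (fun e => ‖ff d e‖) := by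
  have h1 : Summable (fun e : ℕ => (d : ℝ) * (1 / (e : ℝ) ^ 2)) :=
    (Real.summable_one_div_nat_pow.2 (by norm_num)).mul_left _
  exact Summable.of_nonneg_of_le (fun _ => norm_nonneg _) (fun e => ff_abs d e hd) h1

theorem ff_prime_pow (d : ℕ) {p : ℕ} (hp : p.Prime) : ∑' k, ff d (p ^ k) = 1 + ff d p := by
  rw [tsum_eq_sum (s := range 2)]
  · rw [Finset.sum_range_succ, Finset.sum_range_one, pow_zero, pow_one, ff_one]
  · intro k hk
    rw [mem_range, not_lt] at hk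
    have hmu : ArithmeticFunction.moebius (p ^ k) = 0 := by
      rw [ArithmeticFunction.moebius_apply_prime_pow hp (by omega), if_neg (by omega)]
    unfold ff
    rw [hmu]
    simp

/-- the quotient of the factors -/
noncomputable def qq (d p : ℕ) : ℝ := (1 + ff d p) / (1 - 1 / (p : ℝ) ^ 2)

theorem one_sub_pos {p : ℕ} (hp : 2 ≤ p) : (0 : ℝ) < 1 - 1 / (p : ℝ) ^ 2 := by
  have h1 : (2 : ℝ) ≤ p := by exact_mod_cast hp
  have h2 : (4 : ℝ) ≤ (p : ℝ) ^ 2 := by nlinarith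
  rw [sub_pos, div_lt_one (by positivity)]
  linarith

theorem qq_two (d : ℕ) : qq d 2 = 4 / 3 := by
  unfold qq ff
  rw [if_neg (by decide)]
  norm_num

theorem qq_dvd {d p : ℕ} (hp : p.Prime) (hp2 : p ≠ 2) (hpd : p ∣ d) :
    qq d p = (p : ℝ) * (1 / ((p : ℝ) + 1)) := by
  have hodd : Odd p := hp.odd_of_ne_two hp2
  have h2 : (2 : ℝ) ≤ p := by exact_mod_cast hp.two_le
  have h3 := one_sub_pos hp.two_le
  unfold qq
  rw [div_eq_iff h3.ne']
  unfold ff
  rw [if_pos hodd, ArithmeticFunction.moebius_apply_prime hp, Nat.gcd_eq_right hpd]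
  push_cast
  field_simp
  ring

theorem qq_not_dvd {d p : ℕ} (hp : p.Prime) (hp2 : p ≠ 2) (hpd : ¬ p ∣ d) : qq d p = 1 := by
  have hodd : Odd p := hp.odd_of_ne_two hp2
  have h3 := one_sub_pos hp.two_le
  have hcop : Nat.gcd d p = 1 := ((Nat.Prime.coprime_iff_not_dvd hp).2 hpd).symm
  unfold qq
  rw [div_eq_iff h3.ne']
  unfold ff
  rw [if_pos hodd, ArithmeticFunction.moebius_apply_prime hp, hcop]
  push_cast
  ring

theorem ex_S (T : Finset ℕ) (hT : ∀ p ∈ T, p.Prime) (g : ℕ → ℝ) : ∃ S : Finset Nat.Primes,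
    (∀ p : Nat.Primes, (p : ℕ) ∈ T → p ∈ S) ∧ ∏ p ∈ S, g (p : ℕ) = ∏ p ∈ T, g p := by
  refine ⟨T.attach.map ⟨fun x => (⟨x.1, hT x.1 x.2⟩ : Nat.Primes),
    fun x y h => Subtype.ext (by
      have h1 : ((⟨x.1, hT x.1 x.2⟩ : Nat.Primes) : ℕ) = ((⟨y.1, hT y.1 y.2⟩ : Nat.Primes) : ℕ) :=
        congrArg (fun z : Nat.Primes => (z : ℕ)) h
      exact h1)⟩, ?_, ?_⟩
  · intro p hp
    rw [Finset.mem_map]
    exact ⟨⟨p.1, hp⟩, mem_attach _ _, rfl⟩
  · rw [Finset.prod_map]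
    exact Finset.prod_attach T g

/-- the value of the series -/
theorem ff_tsum {d : ℕ} (hd : Odd d) (hsq : Squarefree d) :
    ∑' e, ff d e = 8 / Real.pi ^ 2 * (d * ∏ p ∈ d.primeFactors, 1 / ((p : ℝ) + 1)) := by
  have hd1 : 1 ≤ d := hd.pos
  have h1 := EulerProduct.eulerProduct_hasProd (f := ff d) (ff_one d) (fun {m n} h => ff_mul d h)
    (ff_summable d hd1) (ff_zero d)
  obtain ⟨S, hS, hSp⟩ := ex_S (insert 2 d.primeFactors) (by
    intro p hp
    rw [Finset.mem_insert] at hp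
    rcases hp with rfl | hp
    · exact Nat.prime_two
    · exact Nat.prime_of_mem_primeFactors hp) (qq d)
  have h2 : HasProd (fun p : Nat.Primes => qq d p) (∏ p ∈ S, qq d p) := by
    refine hasProd_prod_of_ne_finset_one ?_
    intro p hp
    have hp' : (p : ℕ) ∉ insert 2 d.primeFactors := fun h => hp (hS p h)
    rw [Finset.mem_insert, not_or, Nat.mem_primeFactors, not_and] at hp'
    refine qq_not_dvd p.2 hp'.1 ?_
    intro h3
    exact (hp'.2 p.2) ⟨h3, by omega⟩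
  have h3 := hasProd_sq.mul h2
  have h4 : (fun p : Nat.Primes => (1 - 1 / ((p : ℕ) : ℝ) ^ 2) * qq d p) =
      fun p : Nat.Primes => ∑' k, ff d ((p : ℕ) ^ k) := by
    funext p
    rw [ff_prime_pow d p.2, qq, mul_div_cancel₀]
    exact (one_sub_pos p.2.two_le).ne'
  rw [h4] at h3
  rw [h1.unique h3, hSp]
  have h6 : (2 : ℕ) ∉ d.primeFactors := by
    intro h7
    have h8 := Nat.dvd_of_mem_primeFactors h7
    have h9 := hd.not_two_dvd_nat
    exact h9 h8
  have h8 : (d : ℝ) = ∏ p ∈ d.primeFactors, (p : ℝ) := by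
    have h9 := congrArg (Nat.cast (R := ℝ)) (Nat.prod_primeFactors_of_squarefree hsq)
    rw [Nat.cast_prod] at h9
    exact h9.symm
  have h7 : ∏ p ∈ insert 2 d.primeFactors, qq d p =
      4 / 3 * (d * ∏ p ∈ d.primeFactors, 1 / ((p : ℝ) + 1)) := by
    rw [Finset.prod_insert h6, qq_two]
    congr 1
    calc ∏ p ∈ d.primeFactors, qq d p
        = ∏ p ∈ d.primeFactors, ((p : ℝ) * (1 / ((p : ℝ) + 1))) := by
          refine Finset.prod_congr rfl fun p hp => ?_
          refine qq_dvd (Nat.prime_of_mem_primeFactors hp) ?_ (Nat.dvd_of_mem_primeFactors hp)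
          rintro rfl
          exact h6 hp
      _ = (∏ p ∈ d.primeFactors, (p : ℝ)) * ∏ p ∈ d.primeFactors, 1 / ((p : ℝ) + 1) :=
          Finset.prod_mul_distrib
      _ = _ := by rw [← h8]
  rw [h7]
  ring

end Pool.Agent.H387.TR
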