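import Pool.Agent.H592.TR.Stm
import Pool.Agent.H21.TD.S4
import Pool.Agent.H387.TR.Eul

set_option autoImplicit false

/-!
# TR project (helper592), statement T4: sums of `φ(m)/m²`
-/

open Finset Filter Topology

namespace Pool.Agent.H387.TR

open Pool.Agent.H592.TR
open Pool.Agent.H592.TD (In)
open Pool.Agent.H21.TD (Ar Ar_lim)

/-- the index set -/
noncomputable def FF (X α β : ℝ) (d i : ℕ) : Finset ℕ :=
  (Icc 1 ⌊X ^ β⌋₊).filter (fun m => 2 ^ i * m ∈ In X α β ∧ Odd m ∧ d ∣ m)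

/-- the sum of `1/m` over the multiples of `e` -/
noncomputable def SS (X α β : ℝ) (d i e : ℕ) : ℝ :=
  ∑ m ∈ (FF X α β d i).filter (fun m => e ∣ m), 1 / (m : ℝ)

theorem SS_nonneg (X α β : ℝ) (d i e : ℕ) : 0 ≤ SS X α β d i e :=
  sum_nonneg fun _ _ => by positivity

/-- sums over multiples -/
theorem mult_le (L N : ℕ) (hL : 1 ≤ L) (hN : 1 ≤ N) :
    ∑ m ∈ (Icc 1 N).filter (fun m => L ∣ m), 1 / (m : ℝ) ≤ 1 / (L : ℝ) * (1 + Real.log N) := by
  have h1 : (Icc 1 N).filter (fun m => L ∣ m) ⊆ (Icc 1 N).image (fun k => L * k) := by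
    intro m hm
    rw [mem_filter, mem_Icc] at hm
    obtain ⟨⟨hm1, hm2⟩, k, rfl⟩ := hm
    rw [mem_image]
    refine ⟨k, ?_, rfl⟩
    rw [mem_Icc]
    constructor
    · rcases Nat.eq_zero_or_pos k with rfl | hk
      · simp at hm1
      · exact hk
    · exact (Nat.le_mul_of_pos_left k hL).trans hm2
  refine (sum_le_sum_of_subset_of_nonneg h1 fun _ _ _ => by positivity).trans ?_
  rw [sum_image]
  · have h2 : ∑ k ∈ Icc 1 N, 1 / ((L * k : ℕ) : ℝ) = 1 / (L : ℝ) * ((harmonic N : ℚ) : ℝ) := by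
      rw [harmonic_eq_sum_Icc]
      push_cast
      rw [mul_sum]
      refine sum_congr rfl fun k _ => ?_
      rw [one_div, mul_inv, one_div]
    rw [h2]
    exact mul_le_mul_of_nonneg_left (harmonic_le_one_add_log N) (by positivity)
  · intro a _ b _ hab
    exact Nat.eq_of_mul_eq_mul_left hL hab

theorem log_floor_le {X β : ℝ} (hX : 2 ≤ X) (hβ : 0 < β) :
    1 ≤ ⌊X ^ β⌋₊ ∧ 1 + Real.log (⌊X ^ β⌋₊ : ℝ) ≤ (1 / Real.log 2 + β) * Real.log X := by
  have hX1 : 1 ≤ X ^ β := Real.one_le_rpow (by linarith) hβ.le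
  have h1 : 1 ≤ ⌊X ^ β⌋₊ := Nat.one_le_floor_iff _ |>.2 hX1
  have h1' : (1 : ℝ) ≤ ⌊X ^ β⌋₊ := by exact_mod_cast h1
  refine ⟨h1, ?_⟩
  have h2 : Real.log (⌊X ^ β⌋₊ : ℝ) ≤ β * Real.log X := by
    rw [← Real.log_rpow (by linarith)]
    exact Real.log_le_log (by linarith) (Nat.floor_le (by linarith))
  have hl2 : 0 < Real.log 2 := Real.log_pos (by norm_num)
  have h3 : Real.log 2 ≤ Real.log X := Real.log_le_log (by norm_num) hX
  have h4 : 1 ≤ 1 / Real.log 2 * Real.log X := by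
    rw [one_div_mul_eq_div, le_div_iff₀ hl2]
    linarith
  linarith

/-- bound for the sum over the multiples -/
theorem SS_le (α : ℝ) {X β : ℝ} (hX : 2 ≤ X) (hβ : 0 < β) (d i e : ℕ) (hd : 1 ≤ d) (he : 1 ≤ e) :
    SS X α β d i e ≤ 1 / (e : ℝ) * ((1 / Real.log 2 + β) * Real.log X) := by
  obtain ⟨h1, h2⟩ := log_floor_le hX hβ
  have h3 : SS X α β d i e ≤
      ∑ m ∈ (Icc 1 ⌊X ^ β⌋₊).filter (fun m => e ∣ m), 1 / (m : ℝ) := by
    refine sum_le_sum_of_subset_of_nonneg ?_ fun _ _ _ => by positivity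
    intro m hm
    rw [mem_filter, FF, mem_filter] at hm
    rw [mem_filter]
    exact ⟨hm.1.1, hm.2⟩
  refine h3.trans ((mult_le e _ he h1).trans ?_)
  exact mul_le_mul_of_nonneg_left h2 (by positivity)

/-- the uniform bound -/
theorem VV_le (α : ℝ) {X β : ℝ} (hX : 2 ≤ X) (hβ : 0 < β) (d i : ℕ) (hd : 1 ≤ d) :
    VV X α β d i ≤ (1 / Real.log 2 + β) / d * Real.log X := by
  obtain ⟨h1, h2⟩ := log_floor_le hX hβ
  have h3 : VV X α β d i ≤
      ∑ m ∈ (Icc 1 ⌊X ^ β⌋₊).filter (fun m => d ∣ m), 1 / (m : ℝ) := by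
    have h4 : VV X α β d i ≤ ∑ m ∈ FF X α β d i, 1 / (m : ℝ) := by
      refine sum_le_sum fun m hm => ?_
      rw [mem_filter, mem_Icc] at hm
      have hm0 : (0 : ℝ) < m := by exact_mod_cast hm.1.1
      rw [div_le_div_iff₀ (by positivity) hm0, one_mul, sq]
      exact mul_le_mul_of_nonneg_right (by exact_mod_cast Nat.totient_le m) hm0.le
    refine h4.trans (sum_le_sum_of_subset_of_nonneg ?_ fun _ _ _ => by positivity)
    intro m hm
    rw [FF, mem_filter] at hm
    rw [mem_filter]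
    exact ⟨hm.1, hm.2.2.2⟩
  refine h3.trans ((mult_le d _ hd h1).trans ?_)
  have h5 : (1 / Real.log 2 + β) / d * Real.log X =
      1 / (d : ℝ) * ((1 / Real.log 2 + β) * Real.log X) := by ring
  rw [h5]
  exact mul_le_mul_of_nonneg_left h2 (by positivity)

/-- `φ(m)/m² = ∑_{e ∣ m} μ(e)/e · 1/m` -/
theorem totient_formula (m : ℕ) (hm : 1 ≤ m) :
    (Nat.totient m : ℝ) / (m : ℝ) ^ 2 =
      ∑ e ∈ m.divisors, ((ArithmeticFunction.moebius e : ℤ) : ℝ) / e * (1 / (m : ℝ)) := by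
  have h1 : ∀ n > 0, ∑ i ∈ n.divisors, ((Nat.totient i : ℕ) : ℝ) = ((n : ℕ) : ℝ) := by
    intro n _
    have := Nat.sum_totient n
    exact_mod_cast this
  have h2 := (ArithmeticFunction.sum_eq_iff_sum_mul_moebius_eq
    (f := fun n => ((Nat.totient n : ℕ) : ℝ)) (g := fun n => ((n : ℕ) : ℝ))).1 h1 m hm
  have h3 := Nat.sum_divisorsAntidiagonal
    (f := fun a b : ℕ => ((ArithmeticFunction.moebius a : ℤ) : ℝ) * (b : ℝ)) (n := m)
  rw [← h2, h3, Finset.sum_div]
  refine sum_congr rfl fun e he => ?_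
  have hm0 : (0 : ℝ) < m := by exact_mod_cast hm
  obtain ⟨k, hk⟩ := Nat.dvd_of_mem_divisors he
  have he0 : 0 < e := Nat.pos_of_mem_divisors he
  have he0' : (0 : ℝ) < e := by exact_mod_cast he0
  have h4 : m / e = k := by rw [hk, Nat.mul_div_cancel_left _ he0]
  have h5 : (m : ℝ) = e * k := by exact_mod_cast hk
  rw [h4]
  have hk0 : (0 : ℝ) < k := by
    rcases Nat.eq_zero_or_pos k with rfl | hk1
    · rw [mul_zero] at hk
      omega
    · exact_mod_cast hk1
  rw [h5]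
  field_simp

/-- expansion of the sum -/
theorem VV_eq (X α β : ℝ) (d i : ℕ) :
    VV X α β d i =
      ∑' e : ℕ, ((ArithmeticFunction.moebius e : ℤ) : ℝ) / e * SS X α β d i e := by
  rw [tsum_eq_sum (s := range (⌊X ^ β⌋₊ + 1))]
  · have h1 : VV X α β d i = ∑ m ∈ FF X α β d i, ∑ e ∈ range (⌊X ^ β⌋₊ + 1),
        if e ∣ m then ((ArithmeticFunction.moebius e : ℤ) : ℝ) / e * (1 / (m : ℝ)) else 0 := by
      refine sum_congr rfl fun m hm => ?_
      rw [FF, mem_filter, mem_Icc] at hm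
      rw [totient_formula m hm.1.1, ← sum_filter]
      refine sum_congr ?_ fun _ _ => rfl
      ext e
      rw [Nat.mem_divisors, mem_filter, mem_range]
      constructor
      · rintro ⟨h2, _⟩
        exact ⟨by have := Nat.le_of_dvd (by omega) h2; omega, h2⟩
      · rintro ⟨_, h2⟩
        exact ⟨h2, by omega⟩
    rw [h1, sum_comm]
    refine sum_congr rfl fun e _ => ?_
    rw [← sum_filter, SS, mul_sum]
  · intro e he
    rw [mem_range, not_lt] at he
    have h1 : SS X α β d i e = 0 := by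
      rw [SS]
      refine sum_eq_zero fun m hm => ?_
      rw [mem_filter, FF, mem_filter, mem_Icc] at hm
      have := Nat.le_of_dvd (by omega) hm.2
      omega
    rw [h1, mul_zero]

/-- even divisors do not occur -/
theorem SS_even (X α β : ℝ) (d i e : ℕ) (he : ¬ Odd e) : SS X α β d i e = 0 := by
  rw [SS]
  refine sum_eq_zero fun m hm => ?_
  rw [mem_filter, FF, mem_filter] at hm
  exact absurd (Odd.of_dvd_nat hm.1.2.2.1 hm.2) he

/-- the inner sum is a sum over a residue class -/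
theorem SS_eq (X α β : ℝ) (d i e : ℕ) (hd : Odd d) (he : Odd e) :
    SS X α β d i e =
      2 ^ i * Ar X α β (2 ^ (i + 1) * Nat.lcm d e) (2 ^ i * Nat.lcm d e) := by
  obtain ⟨L, hL⟩ : ∃ L : ℕ, L = Nat.lcm d e := ⟨_, rfl⟩
  have hLo : Odd L := by
    rw [hL]
    have h1 : Nat.lcm d e ∣ d * e := Nat.lcm_dvd_mul d e
    exact Odd.of_dvd_nat (hd.mul he) h1
  have hL1 : 1 ≤ L := hLo.pos
  have h2i : 1 ≤ 2 ^ i := Nat.one_le_two_pow
  rw [← hL, SS, Ar, ← sum_filter, mul_sum]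
  refine sum_bij (fun m _ => 2 ^ i * m) ?_ ?_ ?_ ?_
  · intro m hm
    rw [mem_filter, FF, mem_filter] at hm
    rw [mem_filter]
    refine ⟨hm.1.2.1, ?_⟩
    have h1 : L ∣ m := by rw [hL]; exact Nat.lcm_dvd hm.1.2.2.2 hm.2
    obtain ⟨k, rfl⟩ := h1
    obtain ⟨j, rfl⟩ := (Nat.odd_mul.1 hm.1.2.2.1).2
    have h3 : 2 ^ i * (L * (2 * j + 1)) = 2 ^ (i + 1) * L * j + 2 ^ i * L := by
      rw [pow_succ]; ring
    rw [h3, Nat.mul_add_mod]
    apply Nat.mod_eq_of_lt
    rw [pow_succ]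
    have : 0 < 2 ^ i * L := by positivity
    nlinarith
  · intro a _ b _ hab
    exact Nat.eq_of_mul_eq_mul_left h2i hab
  · intro u hu
    rw [mem_filter] at hu
    obtain ⟨hu1, hu2⟩ := hu
    have h3 := Nat.div_add_mod u (2 ^ (i + 1) * L)
    rw [hu2] at h3
    obtain ⟨j, hj⟩ : ∃ j : ℕ, j = u / (2 ^ (i + 1) * L) := ⟨_, rfl⟩
    rw [← hj] at h3
    have h4 : u = 2 ^ i * (L * (2 * j + 1)) := by
      rw [← h3, pow_succ]; ring
    refine ⟨L * (2 * j + 1), ?_, h4.symm⟩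
    have hodd : Odd (L * (2 * j + 1)) := hLo.mul ⟨j, rfl⟩
    rw [mem_filter, FF, mem_filter, mem_Icc]
    refine ⟨⟨⟨hodd.pos, ?_⟩, ?_, hodd, ?_⟩, ?_⟩
    · have h5 : u ≤ ⌊X ^ β⌋₊ := by
        rw [In, mem_Ioc] at hu1
        exact hu1.2
      refine le_trans ?_ h5
      rw [h4]
      exact Nat.le_mul_of_pos_left _ h2i
    · rw [← h4]; exact hu1
    · exact dvd_mul_of_dvd_left (by rw [hL]; exact Nat.dvd_lcm_left d e) _
    · exact dvd_mul_of_dvd_left (by rw [hL]; exact Nat.dvd_lcm_right d e) _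
  · intro m _
    push_cast
    have h5 : (0 : ℝ) < 2 ^ i := by positivity
    rw [one_div, one_div, mul_inv, mul_inv_cancel_left₀ h5.ne']

/-- the limit of the inner sum -/
theorem SS_lim {α β : ℝ} (hα : 0 < α) (hαβ : α < β) (d i e : ℕ) (hd : Odd d) (he : Odd e) :
    Tendsto (fun X : ℝ => SS X α β d i e / Real.log X) atTop
      (𝓝 ((β - α) / (2 * (Nat.lcm d e : ℝ)))) := by
  have hL1 : 1 ≤ Nat.lcm d e := Nat.pos_of_ne_zero (Nat.lcm_ne_zero hd.pos.ne' he.pos.ne')
  have h2i : 1 ≤ 2 ^ i := Nat.one_le_two_pow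
  have h1 := (Ar_lim α β (2 ^ (i + 1) * Nat.lcm d e) (2 ^ i * Nat.lcm d e) (by
      exact Nat.one_le_iff_ne_zero.2 (by positivity)) (by
      rw [pow_succ]
      have : 0 < 2 ^ i * Nat.lcm d e := by positivity
      nlinarith) hα hαβ).const_mul ((2 : ℝ) ^ i)
  have h2 : (2 : ℝ) ^ i * ((β - α) / ((2 ^ (i + 1) * Nat.lcm d e : ℕ) : ℝ)) =
      (β - α) / (2 * (Nat.lcm d e : ℝ)) := by
    have hL0 : (0 : ℝ) < (Nat.lcm d e : ℝ) := by exact_mod_cast hL1
    push_cast
    rw [pow_succ]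
    field_simp
  rw [h2] at h1
  refine h1.congr fun X => ?_
  rw [SS_eq X α β d i e hd he]
  ring

/-- the limit of one term -/
theorem term_lim {α β : ℝ} (hα : 0 < α) (hαβ : α < β) (d i e : ℕ) (hd : Odd d) :
    Tendsto (fun X : ℝ => ((ArithmeticFunction.moebius e : ℤ) : ℝ) / e *
      SS X α β d i e / Real.log X) atTop (𝓝 ((β - α) / (2 * d) * ff d e)) := by
  by_cases he : Odd e
  · have h1 := (SS_lim hα hαβ d i e hd he).const_mul
      (((ArithmeticFunction.moebius e : ℤ) : ℝ) / e)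
    have h2 : ((ArithmeticFunction.moebius e : ℤ) : ℝ) / e *
        ((β - α) / (2 * (Nat.lcm d e : ℝ))) = (β - α) / (2 * d) * ff d e := by
      have he0 : (0 : ℝ) < e := by exact_mod_cast he.pos
      have hd0 : (0 : ℝ) < d := by exact_mod_cast hd.pos
      have hL0 : (0 : ℝ) < (Nat.lcm d e : ℝ) := by
        have := Nat.pos_of_ne_zero (Nat.lcm_ne_zero hd.pos.ne' he.pos.ne')
        exact_mod_cast this
      have h3 : ((Nat.gcd d e : ℕ) : ℝ) * (Nat.lcm d e : ℝ) = d * e := by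
        exact_mod_cast Nat.gcd_mul_lcm d e
      rw [ff, if_pos he]
      rw [div_mul_div_comm, div_mul_div_comm, div_eq_div_iff (by positivity) (by positivity)]
      linear_combination (-(2 * e * ((ArithmeticFunction.moebius e : ℤ) : ℝ) * (β - α))) * h3
    rw [h2] at h1
    refine h1.congr fun X => ?_
    ring
  · have h1 : ff d e = 0 := by rw [ff, if_neg he]
    rw [h1, mul_zero]
    refine tendsto_const_nhds.congr fun X => ?_
    rw [SS_even X α β d i e he]
    simp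

theorem t4 : Pool.Agent.H592.TR.T4 := by
  intro α β hα hαβ
  have hβ : 0 < β := hα.trans hαβ
  have hl2 : 0 < Real.log 2 := Real.log_pos (by norm_num)
  constructor
  · intro d i hd hsq
    have hd1 : 1 ≤ d := hd.pos
    have h1 : Tendsto (fun X : ℝ => ∑' e : ℕ, ((ArithmeticFunction.moebius e : ℤ) : ℝ) / e *
        SS X α β d i e / Real.log X) atTop (𝓝 (∑' e : ℕ, (β - α) / (2 * d) * ff d e)) := by
      refine tendsto_tsum_of_dominated_convergence
        (bound := fun e : ℕ => (1 / Real.log 2 + β) * (1 / (e : ℝ) ^ 2)) ?_ ?_ ?_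
      · exact (Real.summable_one_div_nat_pow.2 (by norm_num)).mul_left _
      · intro e
        exact term_lim hα hαβ d i e hd
      · filter_upwards [eventually_ge_atTop (2 : ℝ)] with X hX e
        have hlX : 0 < Real.log X := Real.log_pos (by linarith)
        rcases Nat.eq_zero_or_pos e with rfl | he
        · rw [Nat.cast_zero]
          simp
        · have he0 : (0 : ℝ) < e := by exact_mod_cast he
          rw [Real.norm_eq_abs, abs_div, abs_of_pos hlX, div_le_iff₀ hlX, abs_mul, abs_div,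
            Nat.abs_cast, abs_of_nonneg (SS_nonneg X α β d i e)]
          have h2 := SS_le α hX hβ d i e hd1 he
          have h3 : |((ArithmeticFunction.moebius e : ℤ) : ℝ)| / e ≤ 1 / e :=
            div_le_div_of_nonneg_right (abs_moebius_le e) he0.le
          refine (mul_le_mul h3 h2 (SS_nonneg X α β d i e) (by positivity)).trans (le_of_eq ?_)
          field_simp
    have h2 : ∑' e : ℕ, (β - α) / (2 * d) * ff d e = (β - α) * kap d := by
      rw [tsum_mul_left, ff_tsum hd hsq, kap]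
      have hd0 : (0 : ℝ) < d := by exact_mod_cast hd1
      have hpi : (0 : ℝ) < Real.pi := Real.pi_pos
      field_simp
      ring
    rw [h2] at h1
    refine h1.congr fun X => ?_
    rw [VV_eq, tsum_div_const]
  · refine ⟨1 / Real.log 2 + β, by positivity, fun X hX d i hd => VV_le α hX hβ d i hd⟩

end Pool.Agent.H387.TR
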